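import Pool.Agent.helper4.HL.Spec

/-!
# KIQ: the key inequality
-/

open scoped BigOperators ComplexOrder ComplexConjugate Topology

namespace Pool.Agent.HL

open Pool.Agent.helper86.CM Pool.Agent.QS Filter MeasureTheory

noncomputable section

theorem KIQ_abs {H : Type} [NormedAddCommGroup H] [InnerProductSpace ℂ H] (v0 x y : H) (Z : ℂ)
    (h0 : ‖v0‖ = 1) (hx : inner ℂ v0 x = Z) (hy : inner ℂ v0 y = Z) (hxy : ‖y‖ ≤ ‖x‖) :
    2 * ‖Z‖ ^ 2 ≤ ‖x‖ ^ 2 + ‖inner ℂ x y‖ := by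
  have h1 : inner ℂ v0 (x + y) = 2 * Z := by
    rw [inner_add_right, hx, hy]
    ring
  have h2 : ‖inner ℂ v0 (x + y)‖ ≤ ‖v0‖ * ‖x + y‖ := norm_inner_le_norm v0 (x + y)
  rw [h1, h0, one_mul, norm_mul, Complex.norm_ofNat] at h2
  have h3 : ‖x + y‖ ^ 2 = ‖x‖ ^ 2 + 2 * (inner ℂ x y).re + ‖y‖ ^ 2 := by
    have := norm_add_sq (𝕜 := ℂ) x y
    simpa using this
  have h4 : (inner ℂ x y).re ≤ ‖inner ℂ x y‖ := Complex.re_le_norm _
  have h5 : ‖y‖ ^ 2 ≤ ‖x‖ ^ 2 := by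
    have := norm_nonneg y
    gcongr
  have h6 : (2 * ‖Z‖) ^ 2 ≤ ‖x + y‖ ^ 2 := by
    have := norm_nonneg Z
    gcongr
  nlinarith

/-- Inner product of two combinations of vectors of a positive definite function. -/
theorem KIQ_inner {H : Type} [NormedAddCommGroup H] [InnerProductSpace ℂ H] (S : Finset (Lat 1))
    (p : Lat 1 → ℂ) (f g : Lat 1 → H) (G : Lat 1 → Lat 1 → ℂ)
    (h : ∀ n ∈ S, ∀ m ∈ S, inner ℂ (f n) (g m) = G n m) :
    inner ℂ (∑ n ∈ S, p n • f n) (∑ m ∈ S, p m • g m) =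
      ∑ n ∈ S, ∑ m ∈ S, conj (p n) * p m * G n m := by
  rw [sum_inner]
  refine Finset.sum_congr rfl fun n hn => ?_
  rw [inner_smul_left, inner_sum, Finset.mul_sum]
  refine Finset.sum_congr rfl fun m hm => ?_
  rw [inner_smul_right, h n hn m hm]
  ring

theorem KIQ_pw_zero (B : Lat 1 ≃ₗ[ℤ] Lat 1) (e : ℤ) : pw B e (0 : Lat 1) = 0 := map_zero _

theorem KIQ_pw_sub (B : Lat 1 ≃ₗ[ℤ] Lat 1) (e : ℤ) (n m : Lat 1) :
    pw B e (n - m) = pw B e n - pw B e m := map_sub _ _ _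

theorem KIQ_inv (B : Lat 1 ≃ₗ[ℤ] Lat 1) (Φ : PP → ℂ) (hinv : ∀ x, Φ (BB B x) = Φ x) (s : ℕ)
    (m : Lat 1) : Φ ((0, pw B (s : ℤ) m) : PP) = Φ ((0, m) : PP) := by
  induction s with
  | zero => simp
  | succ k ih =>
    rw [← ih, ← hinv ((0, pw B (k : ℤ) m) : PP)]
    congr 1
    show ((0, pw B ((k + 1 : ℕ) : ℤ) m) : PP) = (B 0, B (pw B (k : ℤ) m))
    rw [map_zero, show ((k + 1 : ℕ) : ℤ) = (k : ℤ) + 1 by push_cast; ring, pw_succ]

theorem KIQ_beta_zero_right (B : Lat 1 ≃ₗ[ℤ] Lat 1) (t : ℤ) (n : Lat 1) : beta B t n 0 = 0 := by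
  unfold beta
  rw [map_zero, omega_zero_right]
  simp

theorem KIQ_beta_zero_left (B : Lat 1 ≃ₗ[ℤ] Lat 1) (t : ℤ) (n : Lat 1) : beta B t 0 n = 0 := by
  unfold beta
  rw [omega_zero_left, omega_zero_left]
  simp

theorem KIQ_hx1 (B : Lat 1 ≃ₗ[ℤ] Lat 1) (t : ℤ) (X : ℝ) (n m : Lat 1) :
    hx B t X ((n, 0) : PP) ((m, 0) : PP) = 0 := by
  unfold hx hh
  simp [KIQ_beta_zero_right]

theorem KIQ_hx2 (B : Lat 1 ≃ₗ[ℤ] Lat 1) (t : ℤ) (X : ℝ) (n m : Lat 1) :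
    hx B t X ((0, n) : PP) ((0, m) : PP) = 0 := by
  unfold hx hh
  simp [KIQ_beta_zero_left]

/-- The inequality for a fixed length `l`. -/
theorem KIQ_fix (hK : KOL_stmt) (B : Lat 1 ≃ₗ[ℤ] Lat 1) (t : ℤ) (X : ℝ) (Φ : PP → ℂ)
    (hpd : PD (hx B t X) Φ) (h1 : Φ 0 = 1) (hinv : ∀ x, Φ (BB B x) = Φ x)
    (hsw : ∀ n, Φ (0, n) = Φ (n, 0)) (S : Finset (Lat 1)) (p : Lat 1 → ℂ) (l : ℕ) (hl : 1 ≤ l) :
    2 * ‖∑ n ∈ S, p n * Φ (n, 0)‖ ^ 2 ≤
      (∑ n ∈ S, ∑ m ∈ S, conj (p n) * p m * Φ (m - n, 0)).re +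
      ‖∑ n ∈ S, ∑ m ∈ S, conj (p n) * p m * ((l : ℂ)⁻¹ * ∑ s ∈ Finset.range l,
        ee (-(hx B t X ((n, 0) : PP) ((0, pw B (s : ℤ) m) : PP))) *
          Φ ((-n, pw B (s : ℤ) m) : PP))‖ := by
  classical
  obtain ⟨q, v, hv⟩ := hK PP (hx B t X) Φ hpd
    ({0} ∪ (S.image (fun n => ((n, 0) : PP)) ∪
      (Finset.range l ×ˢ S).image (fun z => ((0, pw B (z.1 : ℤ) z.2) : PP))))
  have m0 : (0 : PP) ∈ ({0} ∪ (S.image (fun n => ((n, 0) : PP)) ∪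
      (Finset.range l ×ˢ S).image (fun z => ((0, pw B (z.1 : ℤ) z.2) : PP)))) := by simp
  have m1 : ∀ n ∈ S, ((n, 0) : PP) ∈ ({0} ∪ (S.image (fun n => ((n, 0) : PP)) ∪
      (Finset.range l ×ˢ S).image (fun z => ((0, pw B (z.1 : ℤ) z.2) : PP)))) := by
    intro n hn
    exact Finset.mem_union_right _ (Finset.mem_union_left _ (Finset.mem_image_of_mem _ hn))
  have m2 : ∀ s < l, ∀ n ∈ S, ((0, pw B (s : ℤ) n) : PP) ∈
      ({0} ∪ (S.image (fun n => ((n, 0) : PP)) ∪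
      (Finset.range l ×ˢ S).image (fun z => ((0, pw B (z.1 : ℤ) z.2) : PP)))) := by
    intro s hs n hn
    refine Finset.mem_union_right _ (Finset.mem_union_right _ ?_)
    exact Finset.mem_image.2 ⟨(s, n), Finset.mem_product.2 ⟨Finset.mem_range.2 hs, hn⟩, rfl⟩
  generalize ({0} ∪ (S.image (fun n => ((n, 0) : PP)) ∪
      (Finset.range l ×ˢ S).image (fun z => ((0, pw B (z.1 : ℤ) z.2) : PP)))) = T at hv m0 m1 m2
  have hl0 : (l : ℂ) ≠ 0 := by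
    have : l ≠ 0 := by omega
    exact_mod_cast this
  set R : ℂ := ∑ n ∈ S, ∑ m ∈ S, conj (p n) * p m * Φ (m - n, 0) with hR
  set x : EuclideanSpace ℂ (Fin q) := ∑ n ∈ S, p n • v ((n, 0) : PP) with hxd
  set w : ℕ → EuclideanSpace ℂ (Fin q) := fun s => ∑ n ∈ S, p n • v ((0, pw B (s : ℤ) n) : PP)
    with hwd
  have hxx : inner ℂ x x = R := by
    rw [hxd, hR]
    refine KIQ_inner S p _ _ (fun n m => Φ (m - n, 0)) fun n hn m hm => ?_
    rw [hv _ (m1 n hn) _ (m1 m hm), KIQ_hx1, neg_zero, ee_zero, one_mul]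
    congr 1
  have hww : ∀ s < l, inner ℂ (w s) (w s) = R := by
    intro s hs
    rw [hwd, hR]
    refine KIQ_inner S p _ _ (fun n m => Φ (m - n, 0)) fun n hn m hm => ?_
    rw [hv _ (m2 s hs n hn) _ (m2 s hs m hm), KIQ_hx2, neg_zero, ee_zero, one_mul, ← hsw,
      ← KIQ_inv B Φ hinv s (m - n), KIQ_pw_sub]
    congr 1
  have hnx : ‖x‖ ^ 2 = R.re := by
    rw [← hxx, ← inner_self_eq_norm_sq (𝕜 := ℂ)]
    rfl
  have hnw : ∀ s < l, ‖w s‖ = ‖x‖ := by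
    intro s hs
    have e1 : ‖w s‖ ^ 2 = ‖x‖ ^ 2 := by
      rw [hnx, ← hww s hs, ← inner_self_eq_norm_sq (𝕜 := ℂ)]
      rfl
    exact (sq_eq_sq₀ (norm_nonneg _) (norm_nonneg _)).1 e1
  set y : EuclideanSpace ℂ (Fin q) := (l : ℂ)⁻¹ • ∑ s ∈ Finset.range l, w s with hyd
  have hny : ‖y‖ ≤ ‖x‖ := by
    rw [hyd, norm_smul, norm_inv, Complex.norm_natCast]
    have e1 : ‖∑ s ∈ Finset.range l, w s‖ ≤ l * ‖x‖ := by
      refine (norm_sum_le _ _).trans ?_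
      rw [Finset.sum_congr rfl fun s hs => hnw s (Finset.mem_range.1 hs)]
      simp
    have hlr : (0 : ℝ) < l := by exact_mod_cast (by omega : 0 < l)
    calc (l : ℝ)⁻¹ * ‖∑ s ∈ Finset.range l, w s‖ ≤ (l : ℝ)⁻¹ * (l * ‖x‖) := by gcongr
      _ = ‖x‖ := by field_simp
  have hn0 : ‖v 0‖ = 1 := by
    have e1 : ‖v 0‖ ^ 2 = 1 := by
      rw [← inner_self_eq_norm_sq (𝕜 := ℂ), hv _ m0 _ m0, sub_self, h1]
      have : hx B t X 0 0 = 0 := (bil_hx B t X).self 0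
      rw [this, neg_zero, ee_zero]
      simp
    have := norm_nonneg (v 0)
    nlinarith [sq_nonneg (‖v 0‖ - 1), sq_nonneg (‖v 0‖ + 1)]
  have h0x : inner ℂ (v 0) x = ∑ n ∈ S, p n * Φ (n, 0) := by
    rw [hxd, inner_sum]
    refine Finset.sum_congr rfl fun n hn => ?_
    rw [inner_smul_right, hv _ m0 _ (m1 n hn), (bil_hx B t X).zerol, neg_zero, ee_zero, one_mul,
      sub_zero]
  have h0w : ∀ s < l, inner ℂ (v 0) (w s) = ∑ n ∈ S, p n * Φ (n, 0) := by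
    intro s hs
    rw [hwd]
    simp only
    rw [inner_sum]
    refine Finset.sum_congr rfl fun n hn => ?_
    rw [inner_smul_right, hv _ m0 _ (m2 s hs n hn), (bil_hx B t X).zerol, neg_zero, ee_zero,
      one_mul, sub_zero, KIQ_inv B Φ hinv s n, hsw]
  have h0y : inner ℂ (v 0) y = ∑ n ∈ S, p n * Φ (n, 0) := by
    rw [hyd, inner_smul_right, inner_sum,
      Finset.sum_congr rfl fun s hs => h0w s (Finset.mem_range.1 hs), Finset.sum_const,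
      Finset.card_range, nsmul_eq_mul]
    field_simp
  have hxy : inner ℂ x y = ∑ n ∈ S, ∑ m ∈ S, conj (p n) * p m * ((l : ℂ)⁻¹ *
      ∑ s ∈ Finset.range l, ee (-(hx B t X ((n, 0) : PP) ((0, pw B (s : ℤ) m) : PP))) *
          Φ ((-n, pw B (s : ℤ) m) : PP)) := by
    rw [hyd, inner_smul_right, inner_sum]
    have e1 : ∀ s ∈ Finset.range l, inner ℂ x (w s) = ∑ n ∈ S, ∑ m ∈ S, conj (p n) * p m *
        (ee (-(hx B t X ((n, 0) : PP) ((0, pw B (s : ℤ) m) : PP))) *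
          Φ ((-n, pw B (s : ℤ) m) : PP)) := by
      intro s hs
      rw [hxd, hwd]
      refine KIQ_inner S p _ _ (fun n m =>
        (ee (-(hx B t X ((n, 0) : PP) ((0, pw B (s : ℤ) m) : PP))) *
          Φ ((-n, pw B (s : ℤ) m) : PP))) fun n hn m hm => ?_
      rw [hv _ (m1 n hn) _ (m2 s (Finset.mem_range.1 hs) m hm)]
      congr 2
      exact Prod.ext (zero_sub n) (sub_zero _)
    rw [Finset.sum_congr rfl e1, Finset.sum_comm, Finset.mul_sum]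
    refine Finset.sum_congr rfl fun n _ => ?_
    rw [Finset.sum_comm, Finset.mul_sum]
    refine Finset.sum_congr rfl fun m _ => ?_
    rw [← Finset.mul_sum]
    ring
  have := KIQ_abs (v 0) x y (∑ n ∈ S, p n * Φ (n, 0)) hn0 h0x h0y hny
  rw [hnx, hxy] at this
  exact this

/-- KIQ. -/
theorem KIQ (hK : KOL_stmt) (hO : ORT_stmt) : KIQ_stmt := by
  intro B t hB X hX Φ hpd h1 hinv hsw S p h0
  have hlim : Tendsto (fun l : ℕ => (∑ n ∈ S, ∑ m ∈ S, conj (p n) * p m * Φ (m - n, 0)).re +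
      ‖∑ n ∈ S, ∑ m ∈ S, conj (p n) * p m * ((l : ℂ)⁻¹ * ∑ s ∈ Finset.range l,
        ee (-(hx B t X ((n, 0) : PP) ((0, pw B (s : ℤ) m) : PP))) *
          Φ ((-n, pw B (s : ℤ) m) : PP))‖) atTop
      (𝓝 ((∑ n ∈ S, ∑ m ∈ S, conj (p n) * p m * Φ (m - n, 0)).re + ‖(0 : ℂ)‖)) := by
    refine tendsto_const_nhds.add (Tendsto.norm ?_)
    have e0 : (0 : ℂ) = ∑ n ∈ S, ∑ m ∈ S, conj (p n) * p m * 0 := by simp
    rw [e0]
    refine tendsto_finsetSum _ fun n hn => tendsto_finsetSum _ fun m hm => ?_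
    refine tendsto_const_nhds.mul (hO B t hB X hX Φ hpd h1 hinv n m ?_ ?_)
    · rintro rfl
      exact h0 hn
    · rintro rfl
      exact h0 hm
  rw [norm_zero, add_zero] at hlim
  refine ge_of_tendsto hlim ?_
  filter_upwards [eventually_ge_atTop 1] with l hl
  exact KIQ_fix hK B t X Φ hpd h1 hinv hsw S p l hl

end

end Pool.Agent.HL
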